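import Pool.Agent.H445R3.PP7

set_option autoImplicit false

namespace Pool.Agent.Results.MP_ee2255_nt.LogarithmClass

/-- Suppose that `α ^ (γ π)` is algebraic for a positive algebraic `α ≠ 1` and an algebraic
`γ ≠ 0` (in particular: `n ^ π` rational). Let `l` be a logarithm of an algebraic number and
`δ ≠ 0` algebraic.
(1) If `exp (δ π l)` is algebraic then `l` is a rational multiple of `log α`.
(2) If `α ^ (δ l)` is algebraic then `l` is a rational multiple of `i π`.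
(3) If `α ^ (ε e)` is algebraic for some algebraic `ε ≠ 0` then `exp (δ e)` is transcendental for
every real algebraic `δ ≠ 0`. Complex powers are principal. -/
theorem result (α : ℝ) (hα : 0 < α) (hα1 : α ≠ 1) (ha : IsAlgebraic ℚ α)
    (γ : ℂ) (hγ : IsAlgebraic ℚ γ) (hγ0 : γ ≠ 0)
    (h : IsAlgebraic ℚ (((α : ℝ) : ℂ) ^ (γ * ((Real.pi : ℝ) : ℂ)))) :
    (∀ l δ : ℂ, IsAlgebraic ℚ (Complex.exp l) → IsAlgebraic ℚ δ → δ ≠ 0 →
      IsAlgebraic ℚ (Complex.exp (δ * (((Real.pi : ℝ) : ℂ) * l))) →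
      ∃ q : ℚ, l = q * ((Real.log α : ℝ) : ℂ)) ∧
    (∀ l δ : ℂ, IsAlgebraic ℚ (Complex.exp l) → IsAlgebraic ℚ δ → δ ≠ 0 →
      IsAlgebraic ℚ (((α : ℝ) : ℂ) ^ (δ * l)) →
      ∃ q : ℚ, l = q * (((Real.pi : ℝ) : ℂ) * Complex.I)) ∧
    (∀ ε : ℂ, IsAlgebraic ℚ ε → ε ≠ 0 →
      IsAlgebraic ℚ (((α : ℝ) : ℂ) ^ (ε * ((Real.exp 1 : ℝ) : ℂ))) →
      ∀ δ : ℝ, IsAlgebraic ℚ δ → δ ≠ 0 → Transcendental ℚ (Real.exp (δ * Real.exp 1))) :=
  Pool.Agent.H445R3.PP.class_one hα hα1 ha hγ hγ0 h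

end Pool.Agent.Results.MP_ee2255_nt.LogarithmClass
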