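import Pool.Agent.H462R2.PiE2
import Pool.Agent.H364R2.PiE

/-!
The integers `n ≥ 2` with `n ^ π` algebraic are powers of one integer, the integers with `n ^ e`
algebraic have multiplicative rank at most two, and there are at most `O((log N)^2)` exceptions
`n ≤ N` altogether.
-/

set_option autoImplicit false

namespace Pool.Agent.Results.MP_ee2255_nt.OneClass

open Pool.Agent.H462R2.PiE Pool.Agent.H301R2.SSE Pool.Agent.H340R2

/-- two multiplicatively dependent integers with the same ordering as under divisibility -/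
theorem dvd_of_dep (m n : ℕ) (hm : 2 ≤ m) (hn : 2 ≤ n) (hmn : m ≤ n) (h : ¬ Indep ![m, n]) :
    m ∣ n := by
  by_contra hnd
  have hm0 : m ≠ 0 := by omega
  have hn0 : n ≠ 0 := by omega
  have h1 : ∃ p : ℕ, p.Prime ∧ n.factorization p < m.factorization p := by
    by_contra hcon
    push Not at hcon
    exact hnd ((Nat.factorization_prime_le_iff_dvd hm0 hn0).mp hcon)
  obtain ⟨p, hp, hlt⟩ := h1
  have : Fact p.Prime := ⟨hp⟩
  have hdvd : n ∣ m := by
    rw [← Nat.factorization_prime_le_iff_dvd hn0 hm0]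
    intro r hr
    have : Fact r.Prime := ⟨hr⟩
    have h2 := val_two m n hm hn h p r
    rw [Nat.factorization_def _ hr, Nat.factorization_def _ hr]
    rw [Nat.factorization_def _ hp, Nat.factorization_def _ hp] at hlt
    have h3 : padicValNat p m * padicValNat r n = padicValNat r m * padicValNat p n := by
      exact_mod_cast h2
    have h4 : padicValNat p m * padicValNat r n ≤ padicValNat p m * padicValNat r m := by
      rw [h3, mul_comm (padicValNat r m)]
      exact Nat.mul_le_mul_right _ hlt.le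
    exact Nat.le_of_mul_le_mul_left h4 (by omega)
  have : n = m := le_antisymm (Nat.le_of_dvd (by omega) hdvd) hmn
  rw [this] at hnd
  exact hnd dvd_rfl

theorem powers (S : Set ℕ) (h2 : ∀ n ∈ S, 2 ≤ n) (hdep : ∀ m ∈ S, ∀ n ∈ S, ¬ Indep ![m, n])
    (hdiv : ∀ m ∈ S, ∀ k : ℕ, 2 ≤ k → m * k ∈ S → k ∈ S) :
    ∃ r : ℕ, 2 ≤ r ∧ ∀ n ∈ S, ∃ k : ℕ, n = r ^ k := by
  classical
  rcases S.eq_empty_or_nonempty with rfl | hne
  · exact ⟨2, le_rfl, by simp⟩
  · set r := sInf S with hr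
    have hrS : r ∈ S := Nat.sInf_mem hne
    have hr2 : 2 ≤ r := h2 r hrS
    refine ⟨r, hr2, ?_⟩
    intro n
    induction n using Nat.strong_induction_on with
    | _ n ih =>
      intro hn
      have hrn : r ≤ n := Nat.sInf_le hn
      obtain ⟨k, hk⟩ := dvd_of_dep r n hr2 (h2 n hn) hrn (hdep r hrS n hn)
      have hk0 : k ≠ 0 := by
        rintro rfl
        have := h2 n hn
        omega
      rcases Nat.lt_or_ge k 2 with h | h
      · have : k = 1 := by omega
        exact ⟨1, by rw [hk, this]; ring⟩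
      · have hkS : k ∈ S := hdiv r hrS k h (hk ▸ hn)
        have hkn : k < n := by
          rw [hk]
          nlinarith
        obtain ⟨j, hj⟩ := ih k hkn hkS
        exact ⟨j + 1, by rw [hk, hj, pow_succ]; ring⟩

theorem pi_class : ∃ r : ℕ, 2 ≤ r ∧ ∀ n : ℕ, 2 ≤ n → IsAlgebraic ℚ ((n : ℝ) ^ Real.pi) →
    ∃ k : ℕ, n = r ^ k := by
  obtain ⟨r, hr, h⟩ := powers {n : ℕ | 2 ≤ n ∧ IsAlgebraic ℚ ((n : ℝ) ^ Real.pi)}
    (fun n hn => hn.1) (by
      intro m hm n hn hi
      refine two_of_mem Real.pi LW.transcendental_pi pi_mem ![m, n] ?_ hi ?_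
      · intro i
        fin_cases i
        · exact hm.1
        · exact hn.1
      · intro i
        fin_cases i
        · exact hm.2
        · exact hn.2) (by
      intro m hm k hk hmk
      refine ⟨hk, ?_⟩
      have h1 : ((m * k : ℕ) : ℝ) ^ Real.pi = (m : ℝ) ^ Real.pi * (k : ℝ) ^ Real.pi := by
        push_cast
        exact Real.mul_rpow (by positivity) (by positivity)
      have h2 : IsAlgebraic ℚ ((m : ℝ) ^ Real.pi * (k : ℝ) ^ Real.pi) := h1 ▸ hmk.2
      have h3 : ((k : ℝ) ^ Real.pi) = ((m : ℝ) ^ Real.pi)⁻¹ * ((m : ℝ) ^ Real.pi * (k : ℝ) ^ Real.pi) := by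
        have : (m : ℝ) ^ Real.pi ≠ 0 := by
          have hm0 : (0 : ℝ) < m := by
            have := hm.1
            positivity
          positivity
        field_simp
      rw [h3]
      exact hm.2.inv.mul h2)
  exact ⟨r, hr, fun n hn ha => h n ⟨hn, ha⟩⟩

/-- multiplicative independence written out -/
theorem indep2 {m n : ℕ} (h : ∀ a b : ℤ, (m : ℚ) ^ a * (n : ℚ) ^ b = 1 → a = 0 ∧ b = 0) :
    Indep ![m, n] := by
  intro k hk
  rw [Fin.prod_univ_two] at hk
  have := h (k 0) (k 1) (by simpa using hk)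
  ext i
  fin_cases i
  · exact this.1
  · exact this.2

theorem indep3 {l m n : ℕ} (h : ∀ a b c : ℤ, (l : ℚ) ^ a * (m : ℚ) ^ b * (n : ℚ) ^ c = 1 →
    a = 0 ∧ b = 0 ∧ c = 0) : Indep ![l, m, n] := by
  intro k hk
  rw [Fin.prod_univ_three] at hk
  have := h (k 0) (k 1) (k 2) (by simpa using hk)
  ext i
  fin_cases i
  · exact this.1
  · exact this.2.1
  · exact this.2.2

/-- `n ^ π` and `exp (β π ^ 2)` -/
theorem one_pi (n : ℕ) (hn : 2 ≤ n) (h : IsAlgebraic ℚ ((n : ℝ) ^ Real.pi)) (β : ℂ)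
    (hβ : IsAlgebraic ℚ β) (hβ0 : β ≠ 0) : Transcendental ℚ (Complex.exp (β * (Real.pi : ℂ) ^ 2)) := by
  intro halg
  have h1 : (Real.pi : ℂ) ^ 2 ∈ Lt := by
    have h2 := Lt_mul hβ.inv (Lt_log halg)
    have h3 : β⁻¹ * (β * (Real.pi : ℂ) ^ 2) = (Real.pi : ℂ) ^ 2 := by field_simp
    rwa [h3] at h2
  have hpos : (0 : ℝ) < n := by positivity
  have hlog : Real.log n ≠ 0 := (Real.log_pos (by exact_mod_cast (by omega : 1 < n))).ne'
  refine strong_six ![1, ((Real.pi : ℝ) : ℂ)] ![1, ((Real.log n : ℝ) : ℂ), ((Real.pi : ℝ) : ℂ)]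
    ?_ ?_ ?_
  · intro a c ha hc hac
    exact one_indep Real.pi LW.transcendental_pi a c ha hc hac
  · intro c hc hsum
    rw [Fin.sum_univ_three] at hsum
    simp only [Matrix.cons_val_zero, Matrix.cons_val_one, Matrix.cons_val] at hsum
    have h3 := Pool.Agent.H364R2.PiE.pair_indep (lam := Real.log n) hlog (by
        rw [← Complex.ofReal_exp, Real.exp_log hpos]
        exact_mod_cast isAlgebraic_nat n) (hc 0) (hc 2) (hc 1) (by linear_combination hsum)
    intro j
    fin_cases j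
    · exact h3.1
    · exact h3.2.2
    · exact h3.2.1
  · intro i j
    fin_cases i <;> fin_cases j
    · simpa using Lt_one
    · simpa using log_mem n hn
    · simpa using pi_mem
    · simpa using pi_mem
    · simpa using pow_mem n hn Real.pi h
    · simp only [Fin.mk_one, Matrix.cons_val_one, Fin.reduceFinMk, Matrix.cons_val]
      rw [← sq]; exact h1

open Classical in
/-- (1) All integers `n ≥ 2` with `n ^ π` algebraic are powers of one integer `r`.
(2) For every `n ≥ 2` and every algebraic `β ≠ 0`, `n ^ π` or `exp (β π ^ 2)` is transcendental.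
(3) For multiplicatively independent `l, m, n ≥ 2` one of `l ^ e`, `m ^ e`, `n ^ e` is transcendental.
(4) If `m ^ e`, `n ^ e` are algebraic for multiplicatively independent `m, n ≥ 2`, then `e + β π`,
`e (π + β)` and, for `β ≠ 0`, `exp (β e)` are transcendental for every algebraic `β`.
(5) At most `(log_2 N + 2) ^ 2` integers `2 ≤ n ≤ N` have `n ^ π` or `n ^ e` algebraic. -/
theorem result :
    (∃ r : ℕ, 2 ≤ r ∧ ∀ n : ℕ, 2 ≤ n → IsAlgebraic ℚ ((n : ℝ) ^ Real.pi) → ∃ k : ℕ, n = r ^ k) ∧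
    (∀ n : ℕ, 2 ≤ n → ∀ β : ℂ, IsAlgebraic ℚ β → β ≠ 0 →
      Transcendental ℚ ((n : ℝ) ^ Real.pi) ∨
        Transcendental ℚ (Complex.exp (β * (Real.pi : ℂ) ^ 2))) ∧
    (∀ l m n : ℕ, 2 ≤ l → 2 ≤ m → 2 ≤ n →
      (∀ a b c : ℤ, (l : ℚ) ^ a * (m : ℚ) ^ b * (n : ℚ) ^ c = 1 → a = 0 ∧ b = 0 ∧ c = 0) →
      Transcendental ℚ ((l : ℝ) ^ Real.exp 1) ∨ Transcendental ℚ ((m : ℝ) ^ Real.exp 1) ∨
        Transcendental ℚ ((n : ℝ) ^ Real.exp 1)) ∧
    (∀ m n : ℕ, 2 ≤ m → 2 ≤ n → (∀ a b : ℤ, (m : ℚ) ^ a * (n : ℚ) ^ b = 1 → a = 0 ∧ b = 0) →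
      IsAlgebraic ℚ ((m : ℝ) ^ Real.exp 1) → IsAlgebraic ℚ ((n : ℝ) ^ Real.exp 1) →
      ∀ β : ℂ, IsAlgebraic ℚ β →
        Transcendental ℚ ((Real.exp 1 : ℂ) + β * (Real.pi : ℂ)) ∧
        Transcendental ℚ ((Real.exp 1 : ℂ) * ((Real.pi : ℂ) + β)) ∧
        (β ≠ 0 → Transcendental ℚ (Complex.exp (β * (Real.exp 1 : ℂ))))) ∧
    (∀ N : ℕ, ((Finset.Icc 2 N).filter (fun n : ℕ => IsAlgebraic ℚ ((n : ℝ) ^ Real.pi) ∨
      IsAlgebraic ℚ ((n : ℝ) ^ Real.exp 1))).card ≤ (Nat.log 2 N + 2) ^ 2) := by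
  refine ⟨pi_class, ?_, ?_, ?_, ?_⟩
  · intro n hn β hβ hβ0
    by_cases h : IsAlgebraic ℚ ((n : ℝ) ^ Real.pi)
    · exact Or.inr (one_pi n hn h β hβ hβ0)
    · exact Or.inl h
  · intro l m n hl hm hn hi
    by_contra hcon
    push Not at hcon
    simp only [Transcendental, not_not] at hcon
    refine three (Real.exp 1) LW.transcendental_exp_one ![l, m, n] ?_ (indep3 hi) ?_
    · intro i
      fin_cases i
      · exact hl
      · exact hm
      · exact hn
    · intro i
      fin_cases i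
      · exact hcon.1
      · exact hcon.2.1
      · exact hcon.2.2
  · intro m n hm hn hi h1 h2 β hβ
    refine dich ![m, n] ?_ (indep2 hi) ?_ β hβ
    · intro i
      fin_cases i
      · exact hm
      · exact hn
    · intro i
      fin_cases i
      · exact h1
      · exact h2
  · intro N
    convert count N

end Pool.Agent.Results.MP_ee2255_nt.OneClass
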